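import Pool.Agent.Helper25_CN2.Stmts

/-!
Squad CN2, module K_SBM.
-/

namespace Pool.Agent.CN2.H81

open Pool.Agent.H25Cong Pool.Agent.CON

theorem k_sbm (hX_EQU : X_EQU) (hT_FIX : T_FIX) (hT_RAD : T_RAD) (hJ_RAD : J_RAD)
    (hJ_ROOT : J_ROOT) (hE_NON : E_NON) (hT_RK : T_RK) : K_SBM := by
  intro M _ b k C s τ hPD hCT hBad i0 i1 hs0 hs1 hm1 h01
  obtain ⟨x1, hx1, hx1e, k1, hk1⟩ := hT_RAD M b (C i1) (s i1) (τ i1) hPD (hCT.irr i1) hs1
    (hCT.ty i1) hm1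
  have hJ1 := hJ_RAD M b (C i1) (s i1) x1 hPD (hCT.irr i1) hs1 hx1 hx1e ⟨k1, hk1⟩
  refine ⟨fun hf => ?_, ?_⟩
  · obtain ⟨x0, hx0, hn0, ho0, hJ0⟩ := hT_FIX M b (C i0) (s i0) (τ i0) hPD (hCT.irr i0) hs0
      (hCT.ty i0) hf
    obtain ⟨ρ, -, -, hρ⟩ := hX_EQU M b k C s τ
      [(i0, x0, 2, fun ρ _ => ρ = 2 * s i0), (i1, x1, 2, fun ρ _ => ρ = 2 * s i1)]
      hPD hCT hBad (by simp [h01])
      (by
        intro a ha
        simp only [List.mem_cons, List.not_mem_nil, or_false] at ha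
        rcases ha with rfl | rfl
        · exact ⟨hx0, hJ0⟩
        · exact ⟨hx1, hJ1⟩)
      (by simp)
      (by
        simp only [List.map_cons, List.map_nil, List.sum_cons, List.sum_nil]
        rw [hk1]
        obtain ⟨c, hc⟩ := hn0
        exact ⟨c + 2 * k1 + 1, by rw [hc]; ring⟩)
      ⟨_, List.mem_cons_self, ho0⟩
    obtain ⟨_, h0⟩ := hρ _ List.mem_cons_self
    obtain ⟨_, h1⟩ := hρ _ (List.mem_cons_of_mem _ List.mem_cons_self)
    have h0' : ρ = 2 * s i0 := h0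
    have h1' : ρ = 2 * s i1 := h1
    omega
  · intro i2 h20 h21 hm0 hs2 hA
    obtain ⟨x0, hx0, hx0e, k0, hk0⟩ := hT_RAD M b (C i0) (s i0) (τ i0) hPD (hCT.irr i0) hs0
      (hCT.ty i0) hm0
    have hJ0 := hJ_RAD M b (C i0) (s i0) x0 hPD (hCT.irr i0) hs0 hx0 hx0e ⟨k0, hk0⟩
    have hr1 : 3 ≤ (τ i1).rk := by
      rcases h : τ i1 with n | n | n
      · rw [h] at hm1
        have : n = 3 := hm1
        simp [Ty.rk, this]
      · rw [h] at hm1
        have : n = 4 := hm1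
        simp [Ty.rk, this]
      · rw [h] at hm1
        exact absurd hm1 (by simp [Ty.md3])
    have hrk1 := hT_RK M b (C i1) (s i1) (τ i1) hPD (hCT.irr i1) (hCT.ty i1)
    have hrk2 := hT_RK M b (C i2) (s i2) (τ i2) hPD (hCT.irr i2) (hCT.ty i2)
    obtain ⟨α, hα, β, hβ, hab⟩ := hE_NON M b (C i1) (s i1) hPD (hCT.irr i1)
      ((hrk1 2).2 (by omega))
    obtain ⟨γ, hγ⟩ := (hCT.irr i2).ne
    have hJa := hJ_ROOT M b (C i1) (s i1) α hPD (hCT.irr i1) hs1 hα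
    have hJg := hJ_ROOT M b (C i2) (s i2) γ hPD (hCT.irr i2) hs2 hγ
    obtain ⟨ρ, -, -, hρ⟩ := hX_EQU M b k C s τ
      [(i0, x0, 2, fun ρ _ => ρ = 2 * s i0),
       (i1, α, 1, fun ρ t => (ρ = 2 * s i1 ∧ (t = α ∨ t = -α)) ∨
         (ρ = 6 * s i1 ∧ b t α = 0 ∧ Rk (C i1) 2 ∧ ¬ Rk (C i1) 3)),
       (i2, γ, 1, fun ρ t => (ρ = 2 * s i2 ∧ (t = γ ∨ t = -γ)) ∨
         (ρ = 6 * s i2 ∧ b t γ = 0 ∧ Rk (C i2) 2 ∧ ¬ Rk (C i2) 3))]
      hPD hCT hBad (by simp [h01, h20.symm, h21.symm])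
      (by
        intro a ha
        simp only [List.mem_cons, List.not_mem_nil, or_false] at ha
        rcases ha with rfl | rfl | rfl
        · exact ⟨hx0, hJ0⟩
        · exact ⟨AddSubgroup.subset_closure hα, hJa⟩
        · exact ⟨AddSubgroup.subset_closure hγ, hJg⟩)
      (by simp)
      (by
        simp only [List.map_cons, List.map_nil, List.sum_cons, List.sum_nil]
        rw [hk0, (hCT.irr i1).norm α hα, (hCT.irr i2).norm γ hγ]
        omega)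
      ⟨_, List.mem_cons_of_mem _ List.mem_cons_self, β, AddSubgroup.subset_closure hβ, by
        show ¬ (2 : ℤ) ∣ b α β
        rw [hab]; exact hs1⟩
    obtain ⟨_, h0⟩ := hρ _ List.mem_cons_self
    obtain ⟨_, h1⟩ := hρ _ (List.mem_cons_of_mem _ List.mem_cons_self)
    obtain ⟨_, h2⟩ := hρ _ (List.mem_cons_of_mem _ (List.mem_cons_of_mem _ List.mem_cons_self))
    have h0' : ρ = 2 * s i0 := h0
    have h1' : ρ = 2 * s i1 := by
      rcases h1 with h | h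
      · exact h.1
      · exact absurd ((hrk1 3).2 hr1) h.2.2.2
    have h2' : ρ = 2 * s i2 := by
      rcases h2 with h | h
      · exact h.1
      · have h3 := (hrk2 2).1 h.2.2.1
        rw [hA] at h3
        exact absurd h3 (by simp [Ty.rk])
    omega

end Pool.Agent.CN2.H81
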